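import Pool.Agent.H95.RQ.Targets2

/-!
# Artin reciprocity, module UPF: `V_j` has finite index in the group of units at `P`
-/

set_option autoImplicit false

open NumberField NumberField.InfinitePlace IsDedekindDomain

namespace Pool.Agent.H87.RQ

open Pool.Agent.H28.RC Pool.Agent.H95.RQ

theorem pf_UPF (h_LAV : T_LAV) (h_VSG : T_VSG) (h_FUP : T_FUP) (h_VAL : T_VAL) : T_UPF := by
  intro F E _ _ _ _ _ _ P
  obtain ⟨⟨c, hc⟩, ⟨c', hc'⟩⟩ := h_LAV F E P
  obtain ⟨j1, hj1⟩ := h_VSG F E P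
  refine ⟨max (max (c + 1) 0) j1, fun j hj => ?_⟩
  have h0 : 0 ≤ j := (le_max_right (c + 1) 0).trans ((le_max_left _ _).trans hj)
  have h1 : c + 1 ≤ j := (le_max_left (c + 1) 0).trans ((le_max_left _ _).trans hj)
  have h2 : j1 ≤ j := (le_max_right _ _).trans hj
  constructor
  · intro x hx Q
    have h3 := hc j _ h0 ((hj1 j h2 x).1 hx) Q
    have h4 : Q.1.valuation E ((x : E) - 1) < 1 := by
      refine lt_of_le_of_lt h3 ?_
      rw [← WithZero.exp_zero, WithZero.exp_lt_exp]
      omega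
    have := Valuation.map_one_add_of_lt (v := Q.1.valuation E) h4
    simpa using this
  · have hfin : Finite (Ab F E P) := ((h_VAL F E).2.2.2.2.2.1 P).2.1
    have : Fintype (Ab F E P) := Fintype.ofFinite _
    classical
    obtain ⟨Tq, hTq⟩ : ∃ Tq : Finset (HeightOneSpectrum (𝓞 E)),
        ∀ Q, Q ∈ Tq ↔ Q.asIdeal.under (𝓞 F) = P.asIdeal := by
      refine ⟨(Finset.univ : Finset (Ab F E P)).image Subtype.val, fun Q => ?_⟩
      rw [Finset.mem_image]
      constructor
      · rintro ⟨Q', -, rfl⟩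
        exact Q'.2
      · intro h
        exact ⟨⟨Q, h⟩, Finset.mem_univ _, rfl⟩
    have hUU : UU Tq = UP E P := by
      ext x
      constructor
      · intro hx Q
        exact hx Q.1 ((hTq _).2 Q.2)
      · intro hx Q hQ
        exact hx ⟨Q, (hTq _).1 hQ⟩
    -- a uniformizer-like element
    obtain ⟨p, hpP, hp0⟩ := Submodule.exists_mem_ne_zero_of_ne_bot P.ne_bot
    have hpv : P.valuation F (p : F) < 1 := by
      exact (P.valuation_lt_one_iff_mem p).2 hpP
    have hpF : (p : F) ≠ 0 := by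
      simpa using hp0
    have hpv2 : P.valuation F (p : F) ≤ WithZero.exp (-1 : ℤ) := by
      have h3 : P.valuation F (p : F) ≠ 0 := (Valuation.ne_zero_iff _).2 hpF
      rw [← WithZero.exp_log h3] at hpv ⊢
      rw [← WithZero.exp_zero, WithZero.exp_lt_exp] at hpv
      rw [WithZero.exp_le_exp]
      omega
    obtain ⟨M, hM⟩ : ∃ M : ℕ, c' + j ≤ M := ⟨(c' + j).toNat, Int.self_le_toNat _⟩
    have hpM : P.valuation F ((p : F) ^ M) * WithZero.exp c' ≤ WithZero.exp (-j) := by
      have h3 : P.valuation F ((p : F) ^ M) ≤ WithZero.exp (-(M : ℤ)) := by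
        rw [map_pow]
        refine (pow_le_pow_left₀ zero_le hpv2 M).trans ?_
        rw [← WithZero.exp_nsmul]
        simp
      refine (mul_le_mul_left h3 _).trans ?_
      rw [← WithZero.exp_add, WithZero.exp_le_exp]
      omega
    have hk : ∀ Q : HeightOneSpectrum (𝓞 E), ∃ k : ℕ, ∀ k' : ℕ, k ≤ k' →
        WithZero.exp (-(k' + 1 : ℤ)) ≤ Q.valuation E (algebraMap F E ((p : F) ^ M)) := by
      intro Q
      have h3 : Q.valuation E (algebraMap F E ((p : F) ^ M)) ≠ 0 := by
        rw [Valuation.ne_zero_iff]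
        exact (map_ne_zero _).2 (pow_ne_zero _ hpF)
      refine ⟨(-(WithZero.log (Q.valuation E (algebraMap F E ((p : F) ^ M))))).toNat,
        fun k' hk' => ?_⟩
      rw [← WithZero.exp_log h3, WithZero.exp_le_exp]
      have := Int.self_le_toNat (-(WithZero.log (Q.valuation E (algebraMap F E ((p : F) ^ M)))))
      omega
    choose κ hκ using hk
    obtain ⟨k, hkk⟩ : ∃ k : ℕ, ∀ Q ∈ Tq, κ Q ≤ k := ⟨Tq.sup κ, fun Q hQ => Finset.le_sup hQ⟩
    have hW : (⨅ Q ∈ Tq, Uk Q k : Subgroup Eˣ) ≤ VV E P j := by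
      intro x hx
      rw [hj1 j h2 x]
      intro τ
      refine (hc' ((p : F) ^ M) ((x : E) - 1) (pow_ne_zero _ hpF) ?_ τ).trans hpM
      intro Q
      have hQ : Q.1 ∈ Tq := (hTq _).2 Q.2
      have h3 : x ∈ Uk Q.1 k := by
        rw [Subgroup.mem_iInf] at hx
        have := hx Q.1
        rw [Subgroup.mem_iInf] at this
        exact this hQ
      exact le_trans h3 (hκ Q.1 k (hkk _ hQ))
    have h3 := h_FUP E Tq k
    rw [hUU] at h3
    intro h4
    have h5 := Subgroup.relIndex_dvd_of_le_left (UP E P) hW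
    rw [h4] at h5
    exact h3 (Nat.eq_zero_of_zero_dvd h5)

end Pool.Agent.H87.RQ
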